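import Pool.Agent.H8.TX.FinB
import Pool.Agent.H18.TXB.All
import Pool.Agent.H13.TX.DGC

/-!
# Rational self-maps of threefolds whose dynamical degrees are not all equal
-/

set_option autoImplicit false

namespace Pool.Agent.H2.Kept.DegreesNotAllEqual_0cda1a_ag

open MvPolynomial

/-- Let `X` be the irreducible projective variety over `Q̄` defined by the homogeneous prime ideal
`I` (some variable is not in `I`), of dimension at most `n`: any `n + 2` polynomials `u` satisfy a
non-trivial relation `q(u) ∈ I`. Let `f` be a dominant rational self-map of `X` given by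
homogeneous polynomials `F i` of degree `d ≥ 1`, common factors are allowed: `p(F) ∈ I` for
`p ∈ I`, and dominant means that `q ∈ I` if `q` is homogeneous and `q(F) ∈ I`. Suppose that `f`
is not fibered: if `P` and `Q ∉ I` are homogeneous of the same degree and `(P / Q) ∘ f = P / Q`
on `X` then `P / Q` is constant on `X`. There is no further condition if `n ≤ 2`. If `n ≥ 3`
suppose that one of the following holds.

(1) Outside some hypersurface section every point of `X` has at least `e` preimages: for `y` in the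
cone over `X` with `c(y) ≠ 0`, `c ∉ I`, there is a set `S` of `e` points `x` of the cone with
`F x = y`, no two of which are proportional; and for some `m ≥ 1` the iterate `f^m` is given on `X`
by homogeneous polynomials `G i` of degree `δ ≥ 1`, not all in `I`, with `δ ^ (n - 2) < e ^ m`
(that is, `e > λ_1(f) ^ (n - 2)`).

(2) `n = 3`, outside some hypersurface section every point of `X` has at most `e` preimages: for
`y` in the cone over `X` with `c(y) ≠ 0`, `c ∉ I`, a finite set of points `x` of the cone with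
`F x = y`, no two of which are proportional, has at most `e` elements; `e ≥ 1`, and there is a real
number `μ > e` such that for infinitely many `m` the second degree of `f^m` is at least `μ ^ m`,
that is, there are linear forms `s 0`, `s 1`, `s' 0`, `s' 1`, `s' 2` and a polynomial `c ≠ 0` in
three variables such that for all `t` with `c(t) ≠ 0` the equations `s 1 = t 0 * s 0`,
`s' 1 ∘ f^m = t 1 * s' 0 ∘ f^m`, `s' 2 ∘ f^m = t 2 * s' 0 ∘ f^m` have at least `μ ^ m` solutions on
`X` with `s 0 ≠ 0` and `s' 0 ∘ f^m ≠ 0` (that is, `e < λ_2(f)`).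

Then for every homogeneous polynomial `b ∉ I` there is a point `x` of `X(Q̄)` with a well-defined
forward orbit, which is contained in `b ≠ 0` and Zariski dense in `X`. -/
theorem result (L : ℕ) (I : Ideal (MvPolynomial (Fin L) (AlgebraicClosure ℚ))) (hI : I.IsPrime)
    (hhom : ∀ p ∈ I, ∀ j : ℕ, homogeneousComponent j p ∈ I)
    (hne : ∃ i, (X i : MvPolynomial (Fin L) (AlgebraicClosure ℚ)) ∉ I) (n : ℕ)
    (hdim : ∀ u : Fin (n + 2) → MvPolynomial (Fin L) (AlgebraicClosure ℚ),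
      ∃ q : MvPolynomial (Fin (n + 2)) (AlgebraicClosure ℚ), q ≠ 0 ∧ aeval u q ∈ I)
    (F : Fin L → MvPolynomial (Fin L) (AlgebraicClosure ℚ)) (d : ℕ) (hd : 1 ≤ d)
    (hF : ∀ i, (F i).IsHomogeneous d) (hmap : ∀ p ∈ I, aeval F p ∈ I)
    (hdom : ∀ (m : ℕ) (q : MvPolynomial (Fin L) (AlgebraicClosure ℚ)), q.IsHomogeneous m →
      aeval F q ∈ I → q ∈ I)
    (hfib : ∀ (m : ℕ) (P Q : MvPolynomial (Fin L) (AlgebraicClosure ℚ)), P.IsHomogeneous m →
      Q.IsHomogeneous m → Q ∉ I → aeval F P * Q - aeval F Q * P ∈ I →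
      ∃ s : AlgebraicClosure ℚ, P - C s * Q ∈ I)
    (hdeg : 3 ≤ n → (∃ (G : Fin L → MvPolynomial (Fin L) (AlgebraicClosure ℚ))
      (c : MvPolynomial (Fin L) (AlgebraicClosure ℚ)) (e m δ : ℕ), c ∉ I ∧
      (∀ y : Fin L → AlgebraicClosure ℚ, (∀ p ∈ I, eval y p = 0) → eval y c ≠ 0 →
        ∃ S : Finset (Fin L → AlgebraicClosure ℚ), S.card = e ∧
          (∀ x ∈ S, (∀ p ∈ I, eval x p = 0) ∧ (fun i => eval x (F i)) = y) ∧
          ∀ x ∈ S, ∀ x' ∈ S, ∀ s : AlgebraicClosure ℚ, (∀ i, x' i = s * x i) → x' = x) ∧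
      1 ≤ m ∧ (∀ i, (G i).IsHomogeneous δ) ∧ 1 ≤ δ ∧ (∃ i, G i ∉ I) ∧
      (∀ x : Fin L → AlgebraicClosure ℚ, (∀ p ∈ I, eval x p = 0) → ∀ i j,
        (fun (z : Fin L → AlgebraicClosure ℚ) (l : Fin L) => eval z (F l))^[m] x i *
            eval x (G j) =
          (fun (z : Fin L → AlgebraicClosure ℚ) (l : Fin L) => eval z (F l))^[m] x j *
            eval x (G i)) ∧
      δ ^ (n - 2) < e ^ m) ∨
      (n = 3 ∧ ∃ (c : MvPolynomial (Fin L) (AlgebraicClosure ℚ)) (e : ℕ) (μ : ℝ), 1 ≤ e ∧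
        c ∉ I ∧
        (∀ y : Fin L → AlgebraicClosure ℚ, (∀ p ∈ I, eval y p = 0) → eval y c ≠ 0 →
          ∀ S : Finset (Fin L → AlgebraicClosure ℚ),
            (∀ x ∈ S, (∀ p ∈ I, eval x p = 0) ∧ (fun i => eval x (F i)) = y) →
            (∀ x ∈ S, ∀ x' ∈ S, ∀ s : AlgebraicClosure ℚ, (∀ i, x' i = s * x i) → x' = x) →
            S.card ≤ e) ∧
        (e : ℝ) < μ ∧
        ∀ M : ℕ, ∃ m : ℕ, M ≤ m ∧
          ∃ (s : Fin 2 → MvPolynomial (Fin L) (AlgebraicClosure ℚ))
            (s' : Fin 3 → MvPolynomial (Fin L) (AlgebraicClosure ℚ))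
            (c : MvPolynomial (Fin 3) (AlgebraicClosure ℚ)),
            (∀ i, (s i).IsHomogeneous 1) ∧ (∀ i, (s' i).IsHomogeneous 1) ∧ c ≠ 0 ∧
            ∀ t : Fin 3 → AlgebraicClosure ℚ, eval t c ≠ 0 →
              ∃ S : Finset (Fin L → AlgebraicClosure ℚ), μ ^ m ≤ (S.card : ℝ) ∧
                ∀ x ∈ S, (∀ p ∈ I, eval x p = 0) ∧ eval x (s 0) = 1 ∧ eval x (s 1) = t 0 ∧
                  eval ((fun (z : Fin L → AlgebraicClosure ℚ) (l : Fin L) =>
                    eval z (F l))^[m] x) (s' 0) ≠ 0 ∧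
                  eval ((fun (z : Fin L → AlgebraicClosure ℚ) (l : Fin L) =>
                    eval z (F l))^[m] x) (s' 1) =
                    t 1 * eval ((fun (z : Fin L → AlgebraicClosure ℚ) (l : Fin L) =>
                      eval z (F l))^[m] x) (s' 0) ∧
                  eval ((fun (z : Fin L → AlgebraicClosure ℚ) (l : Fin L) =>
                    eval z (F l))^[m] x) (s' 2) =
                    t 2 * eval ((fun (z : Fin L → AlgebraicClosure ℚ) (l : Fin L) =>
                      eval z (F l))^[m] x) (s' 0)))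
    (b : MvPolynomial (Fin L) (AlgebraicClosure ℚ)) (t : ℕ) (hb : b.IsHomogeneous t)
    (hbI : b ∉ I) :
    ∃ x : Fin L → AlgebraicClosure ℚ, (∀ p ∈ I, eval x p = 0) ∧
      (∀ m : ℕ, (fun (z : Fin L → AlgebraicClosure ℚ) (l : Fin L) => eval z (F l))^[m] x ≠ 0) ∧
      (∀ m : ℕ, eval ((fun (z : Fin L → AlgebraicClosure ℚ) (l : Fin L) =>
        eval z (F l))^[m] x) b ≠ 0) ∧
      ∀ (s : ℕ) (q : MvPolynomial (Fin L) (AlgebraicClosure ℚ)), q.IsHomogeneous s →
        (∀ m : ℕ, eval ((fun (z : Fin L → AlgebraicClosure ℚ) (l : Fin L) =>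
          eval z (F l))^[m] x) q = 0) →
        q ∈ I := by
  have hCBX : Pool.Agent.H8.TX.T_CBX := Pool.Agent.H18.TXB.Al.cbx
  have hDGC : Pool.Agent.H8.TX.T_DGC := Pool.Agent.H13.TX.pf_DGC
  by_cases hn : 3 ≤ n
  · rcases hdeg hn with ⟨G, c, e, m, δ, hc, he, hm, hG, hδ, hGI, hcross, hdeg⟩ |
      ⟨rfl, c, e, μ, he, hc, hpre, hμ, hgrow⟩
    · exact Pool.Agent.H18.VZ.finalZ Pool.Agent.H8.TX.ftd_Qb hI hhom hne n hdim F d hd hF hmap
        hdom hfib (fun _ => ⟨G, e, m, δ, ⟨c, hc, he⟩, hm, hG, hδ, hGI, hcross, hdeg⟩) b t hb hbI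
    · refine Pool.Agent.H8.TX.n3varB_of hCBX hDGC hI hhom hne hdim F d hd hF hmap hdom hfib e he
        ⟨c, hc, hpre⟩ μ hμ (fun M => ?_) b t hb hbI
      obtain ⟨m, hm, s, s', c, hs, hs', hc, hpts⟩ := hgrow M
      exact ⟨m, hm, s 0, s 1, s' 0, s' 1, s' 2, c, hs 0, hs 1, hs' 0, hs' 1, hs' 2, hc, hpts⟩
  · exact Pool.Agent.H18.VZ.finalZ Pool.Agent.H8.TX.ftd_Qb hI hhom hne n hdim F d hd hF hmap
      hdom hfib (fun h => absurd h hn) b t hb hbI

end Pool.Agent.H2.Kept.DegreesNotAllEqual_0cda1a_ag
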