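import Pool.Agent.H63.MU.All

/-!
# The McKay conjecture and the Alperin–McKay conjecture above a normal subgroup

`IrrP ℓ G` is the set of the irreducible characters of `G` of degree prime to `ℓ`, so that the
left-hand side is the statement of the McKay conjecture for the prime `ℓ`.

On the right-hand side `K₁ ≤ K` are normal subgroups of the finite group `G`, and `χ ∈ Irr(G)` and
`ψ ∈ Irr(M)` are characters in `ℓ`-blocks with defect group `D`, where `K₁ N_G(D) ≤ M ≤ G` and the
block of `ψ` induces the block of `χ`; for `K₁ = 1` and `M = N_G(D)` these blocks are Brauer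
correspondents. All elements of `C_G(D)` of order prime to `ℓ` lie in `K`. `Svx 𝓟 ⊤ D K₁ K` says
that there is a series of normal subgroups of `G` from `K₁` to `K` such that for every non-abelian
simple section `S` of a factor of the series the pair `(S, Q)` is in `𝓟`, where `Q` is the image of
`D` in `S`. `SmallE ℓ ab S Q` says that `Q` is cyclic, or that `|Q| ≤ 4` and `ab` holds or the order
of `Out(S)` is prime to `ℓ`. `Irr0 ℓ 𝔪 χ D` is the set of the irreducible characters of height zero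
in the block of `χ`.

There is no condition on the group `G / K`.
-/

open AMc AMe AMt AMw AMy
open scoped Classical

namespace Pool.Agent.H2.Kept.McKayOnTop

theorem result (ℓ : ℕ) [Fact ℓ.Prime] (𝔪 : Ideal (integralClosure ℤ ℂ)) (hm : 𝔪.IsMaximal)
    (hl : (ℓ : integralClosure ℤ ℂ) ∈ 𝔪) :
    -- the McKay conjecture for the prime `ℓ`
    (∀ (G : Type) [Group G] [Fintype G] (P : Sylow ℓ G),
      (IrrP ℓ G).ncard = (IrrP ℓ (Subgroup.normalizer ((P : Subgroup G) : Set G))).ncard) ↔
    -- the Alperin–McKay equality for all blocks of all `G` with suitable `K₁`, `K`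
    ∀ (G : Type) [Group G] [Fintype G] (K₁ K M D : Subgroup G), K₁.Normal → K.Normal → K₁ ≤ K →
      (∀ x ∈ Subgroup.centralizer (D : Set G), ¬ ℓ ∣ orderOf x → x ∈ K) →
      Svx (SmallE ℓ (∀ a ∈ D, ∀ b ∈ D, a * b = b * a)) ⊤ D K₁ K → K₁ ≤ M →
      Subgroup.normalizer (D : Set G) ≤ M → ∀ (χ : G → ℂ) (ψ : M → ℂ), χ ∈ Irr G → ψ ∈ Irr M →
      IsDefect ℓ 𝔪 χ D → IsDefect ℓ 𝔪 ψ (D.subgroupOf M) → Corr 𝔪 M.subtype χ ψ →
      (Irr0 ℓ 𝔪 χ D).ncard = (Irr0 ℓ 𝔪 ψ (D.subgroupOf M)).ncard :=
  Pool.Agent.H63.MU.mtE ℓ 𝔪 hm hl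

end Pool.Agent.H2.Kept.McKayOnTop
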