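import Pool.Agent.H16.ZW.All

set_option autoImplicit false

/-!
# Zariski dense orbits of polynomial maps with a monomial leading part
-/

namespace Pool.Agent.H2.Kept.MonomialLeadingPart_ccfdad_ag

open MvPolynomial

/-- Let `f` be a polynomial self-map of affine `N`-space over `Q̄` and let the variable `X j` have
weight `w j`. Suppose that some iterate of `f` has the coordinates
`c i * ∏ j, X j ^ A i j * M ^ w i + g i`, where `c i ≠ 0`, `A` is a matrix of natural numbers with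
`det A ≠ 0` and `A w = d w`, the polynomial `M ≠ 0` is weighted homogeneous of weight `μ` with
`d + μ ≥ 2`, either `M = 1` or all weights `w j` are non-negative, and either all terms of all `g i`
have weight less than `(d + μ) w i` (`s = 1`) or all terms of all `g i` have weight greater than
`(d + μ) w i` (`s = -1`). Suppose also that `∏ i, c i ^ (γ (1 + A + ... + A ^ (l - 1))) i ≠ 1` for
all integer vectors `γ ≠ 0` orthogonal to `w` and all `l ≥ 1` with `γ A ^ l = γ`. Then some point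
has a Zariski dense orbit under `f`. -/
theorem result (N : ℕ) (f : Fin N → MvPolynomial (Fin N) (AlgebraicClosure ℚ)) (k : ℕ)
    (s : ℤ) (hs : s = 1 ∨ s = -1)
    (M : MvPolynomial (Fin N) (AlgebraicClosure ℚ))
    (g : Fin N → MvPolynomial (Fin N) (AlgebraicClosure ℚ))
    (w : Fin N → ℤ) (A : Matrix (Fin N) (Fin N) ℕ) (c : Fin N → AlgebraicClosure ℚ) (d μ : ℤ)
    (hf : ∀ i, (fun (h : Fin N → MvPolynomial (Fin N) (AlgebraicClosure ℚ)) (i : Fin N) =>
        aeval h (f i))^[k] (fun i => X i) i =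
      C (c i) * (∏ j, X j ^ A i j) * M ^ (w i).toNat + g i)
    (hg : ∀ i, ∀ m ∈ (g i).support, s * ∑ j, (m j : ℤ) * w j < s * ((d + μ) * w i))
    (hM0 : M ≠ 0) (hM : ∀ m ∈ M.support, ∑ j, (m j : ℤ) * w j = μ) (hMw : M = 1 ∨ ∀ i, 0 ≤ w i)
    (hc0 : ∀ i, c i ≠ 0) (hdet : (A.map (Nat.cast : ℕ → ℤ)).det ≠ 0)
    (heig : ∀ i, ∑ j, (A i j : ℤ) * w j = d * w i) (hδ : 2 ≤ d + μ)
    (hc : ∀ γ : Fin N → ℤ, γ ≠ 0 → ∑ i, γ i * w i = 0 → ∀ l : ℕ, 1 ≤ l →
      Matrix.vecMul γ (A.map (Nat.cast : ℕ → ℤ) ^ l) = γ →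
      ∏ i, c i ^ (Matrix.vecMul γ (∑ j ∈ Finset.range l, A.map (Nat.cast : ℕ → ℤ) ^ j)) i ≠ 1) :
    ∃ P : Fin N → AlgebraicClosure ℚ,
      ∀ h : MvPolynomial (Fin N) (AlgebraicClosure ℚ),
        (∀ n : ℕ, eval ((fun (x : Fin N → AlgebraicClosure ℚ) (i : Fin N) =>
          eval x (f i))^[n] P) h = 0) → h = 0 := by
  obtain ⟨L, hL⟩ := Pool.Agent.H16.ZW.poly2_of_main Pool.Agent.H16.ZW.main f k s hs M g w A c d μ
    hM0 hMw hc0 hdet heig hδ hM hg hf hc
  obtain ⟨q, hqM, hq⟩ := Nat.exists_infinite_primes (L + 1)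
  obtain ⟨p, hp⟩ : ∃ p : Nat.Primes, L < (p : ℕ) := ⟨⟨q, hq⟩, hqM⟩
  obtain ⟨t, ε, hε, h⟩ := hL p hp
  exact ⟨t, h t fun i => by rwa [sub_self, Pool.Agent.H12.ZD.v_zero]⟩

end Pool.Agent.H2.Kept.MonomialLeadingPart_ccfdad_ag
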