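import Pool.Agent.H8.BIG.All
import Pool.Agent.H8.BIG.Irr

/-!
# Polynomial self-maps of affine space whose topological degree dominates
-/

set_option autoImplicit false

namespace Pool.Agent.H2.Kept.TopologicalDegreeDominant_ccfdad

open MvPolynomial

/-- Let `k` be an algebraically closed field of characteristic zero and `f` a polynomial self-map
of affine `N`-space over `k`. Suppose that every point `y` outside some hypersurface `c = 0` has at
least `e` preimages under `f`, and that for some `n ≥ 1` and `m < e ^ n` the image under `f^n` of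
every irreducible hypersurface of degree `r` is contained in a hypersurface of degree at most
`m r`. Then for every nonzero polynomial `b` there is a point whose forward orbit is contained in
`b ≠ 0` and Zariski dense. -/
theorem result (k : Type) [Field k] [IsAlgClosed k] [CharZero k] (N : ℕ)
    (f : Fin N → MvPolynomial (Fin N) k) (b c : MvPolynomial (Fin N) k) (e n m : ℕ)
    (hn : 1 ≤ n) (hc : c ≠ 0)
    (he : ∀ y : Fin N → k, eval y c ≠ 0 →
      ∃ S : Finset (Fin N → k), S.card = e ∧ ∀ x ∈ S, (fun i => eval x (f i)) = y)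
    (hm : m < e ^ n)
    (himage : ∀ S : MvPolynomial (Fin N) k, Irreducible S →
      ∃ Q : MvPolynomial (Fin N) k, Q ≠ 0 ∧ Q.totalDegree ≤ m * S.totalDegree ∧
        ∀ y : Fin N → k, eval y S = 0 →
          eval ((fun (z : Fin N → k) (j : Fin N) => eval z (f j))^[n] y) Q = 0)
    (hb : b ≠ 0) :
    ∃ x : Fin N → k,
      (∀ j : ℕ, eval ((fun (z : Fin N → k) (i : Fin N) => eval z (f i))^[j] x) b ≠ 0) ∧
      ∀ q : MvPolynomial (Fin N) k,
        (∀ j : ℕ, eval ((fun (z : Fin N → k) (i : Fin N) => eval z (f i))^[j] x) q = 0) →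
        q = 0 := by
  refine Pool.Agent.H8.BIG.thmKA Pool.Agent.H8.BIG.All.ba Pool.Agent.H8.BIG.All.ksp
    Pool.Agent.H8.BIG.All.sp2 N k f b e n m ⟨c, hc, he⟩ hn ?_ hm hb
  apply Pool.Agent.H8.BIG.kk_of_irr
  intro S hS
  obtain ⟨Q, hQ, hQd, hQS⟩ := himage S hS
  refine ⟨Q, hQ, hQd, fun y hy => ?_⟩
  rw [Pool.Agent.H18.HIT.pmap_it]
  exact hQS y hy

end Pool.Agent.H2.Kept.TopologicalDegreeDominant_ccfdad
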