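import Pool.Agent.H3.VTC.Mod

set_option autoImplicit false

/-!
# The Künneth conjecture and the variational Tate conjecture in characteristic p
-/

namespace Pool.Agent.H2.Kept.VariationalTate

open Pool.Agent.H64.CC Pool.Agent.H3.VTC

/-- Let `W` be a Weil cohomology for the smooth projective connected varieties over the fields
`F 0 ⊂ F 1 ⊂ …`, where `F n` is the algebraic closure of the field of rational functions in `n`
variables over the prime field of characteristic `p`, in which the Künneth projectors of the
varieties over `F 0` are algebraic (Katz and Messing), and let `F` be the theory of the smooth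
projective families over curves over the fields `F n`.

(a) Let `X`, `Y` be families over a curve over `F n` with a point `0`, and let `V` be a smooth
projective variety which is generically finite over a compactification of `X ×_S Y`. If the Künneth
conjecture `C` and the Lefschetz standard conjecture `B` hold for `V` and for the fibres over `0`
of `X` and `Y`, then the variational Tate conjecture holds for `X ×_S Y`, with rational
coefficients (`VT`) and with coefficients in `K` (`VTK`).

(b) Let `X` be a variety over `F n` of dimension `d`. If the variational Tate conjecture holds for
the fibre products, of fibre dimension at most `2d`, over the curves over `F m`, for all `m < n`,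
then the Künneth conjecture holds for `X`; if it holds with coefficients in `K`, then the sign
conjecture `C⁺` holds for `X`.

(c) Suppose that generic complete intersections exist (`Sections`). If the sign conjecture `C⁺`
holds in the odd dimensions at most `2 ^ (n + 1) (N + 2) - 3`, then the variational Tate conjecture
holds for the fibre products of fibre dimension at most `N`, over the curves over `F n`.

(d) Under the same hypothesis the following are equivalent: the sign conjecture for all varieties;
`B` for the varieties over `F 0`; `C` and `B` for all varieties; the variational Tate conjecture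
for all families, with rational coefficients; the same with coefficients in `K`. -/
theorem result {K : Type} [Field K] [CharZero K] (W : Weil K) (hW : W.Theory) (F : Families W)
    (hF : F.Theory) :
    (∀ (n : ℕ) (S : F.Base n) (X Y : F.Fam S) (V : W.Var n), Nonempty (F.Total X Y V) →
      (W.C V ∧ W.B V) → (W.C (F.fib X) ∧ W.B (F.fib X)) → (W.C (F.fib Y) ∧ W.B (F.fib Y)) →
      F.VT X Y ∧ F.VTK X Y) ∧
    (∀ (n d : ℕ) (X : W.Var n), W.dim X = d →
      ((∀ m < n, F.Variational m (2 * d)) → W.C X) ∧
      ((∀ m < n, F.VariationalK m (2 * d)) → W.Cplus X)) ∧
    (W.Sections → ∀ n N : ℕ,
      (∀ (m : ℕ) (T : W.Var m), Odd (W.dim T) → W.dim T + 3 ≤ 2 ^ (n + 1) * (N + 2) →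
        W.Cplus T) →
      F.Variational n N ∧ F.VariationalK n N) ∧
    (W.Sections → List.TFAE [
      ∀ (n : ℕ) (X : W.Var n), W.Cplus X,
      ∀ Z : W.Var 0, W.B Z,
      ∀ (n : ℕ) (X : W.Var n), W.C X ∧ W.B X,
      ∀ n N : ℕ, F.Variational n N,
      ∀ n N : ℕ, F.VariationalK n N]) :=
  ⟨fun _ _ X Y _ hT hV hX hY => vt_of_total hW hF X Y hT hX hY hV,
    fun n d X hX => ⟨fun H => c_of_variational hW hF n d H X hX,
      fun H => cplus_of_variationalK hW hF n d H X hX⟩,
    fun hS n N H => variational_of_cplus hW hF hS n N H, fun hS => main_tfae hW hF hS⟩

end Pool.Agent.H2.Kept.VariationalTate
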